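import Pool.Agent.helper41.WS.Spec

/-!
# Module ws:GAM (helper98)

Bound for the ratio of Gamma factors: Phragmen-Lindelof for the finite products of Euler
(for which the growth condition is trivial), then the limit `n → ∞`.
-/

set_option autoImplicit false

open Complex Filter Topology Set
open scoped ComplexConjugate

namespace Pool.Agent.WS

/-- a finite product which tends to `Γ(α+z) / Γ(conj α - z)` -/
noncomputable def gamB (α : ℂ) (n : ℕ) (z : ℂ) : ℂ :=
  cexp (2 * z * (Real.log n : ℂ)) * ∏ j ∈ Finset.range (n + 1), (conj α - z + j) / (α + z + j)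

theorem gam_den {α z : ℂ} (_hα : 0 < α.re) (hz : 0 ≤ z.re) (j : ℕ) :
    α.re ≤ ‖α + z + j‖ := by
  calc α.re ≤ (α + z + j).re := by
        simp only [add_re, natCast_re]
        have : (0 : ℝ) ≤ j := Nat.cast_nonneg j
        linarith
    _ ≤ ‖α + z + j‖ := re_le_norm _

theorem gamB_norm (α : ℂ) (n : ℕ) (z : ℂ) :
    ‖gamB α n z‖ = Real.exp (2 * z.re * Real.log n) *
      ∏ j ∈ Finset.range (n + 1), ‖conj α - z + j‖ / ‖α + z + j‖ := by
  unfold gamB
  rw [norm_mul, norm_exp, norm_prod]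
  congr 1
  · congr 1
    rw [re_mul_ofReal]
    simp
  · refine Finset.prod_congr rfl fun j _ => ?_
    rw [norm_div]

theorem gamB_zero {α : ℂ} (hα : 0 < α.re) (n : ℕ) {z : ℂ} (hz : z.re = 0) :
    ‖gamB α n z‖ = 1 := by
  rw [gamB_norm, hz]
  simp only [mul_zero, zero_mul, Real.exp_zero, one_mul]
  refine Finset.prod_eq_one fun j _ => ?_
  have h1 : conj α - z + j = conj (α + z + j) := by
    apply Complex.ext
    · simp [hz]
    · simp
      ring
  rw [h1, norm_conj, div_self]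
  have := gam_den hα hz.ge j
  exact (lt_of_lt_of_le hα this).ne'

theorem gamB_half {α : ℂ} (hα : 0 < α.re) {n : ℕ} (hn : 1 ≤ n) {z : ℂ} (hz : z.re = 1 / 2) :
    ‖gamB α n z‖ ≤ ‖α + z - 1‖ := by
  rw [gamB_norm, hz]
  have h0 : (0 : ℝ) ≤ z.re := by rw [hz]; norm_num
  have h1 : ∀ j : ℕ, ‖conj α - z + j‖ = ‖α + z - 1 + j‖ := by
    intro j
    have : conj α - z + j = conj (α + z - 1 + j) := by
      apply Complex.ext
      · simp [hz]
        ring
      · simp
        ring
    rw [this, norm_conj]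
  have h2 : ∀ m : ℕ, ∏ j ∈ Finset.range (m + 1), ‖conj α - z + j‖ / ‖α + z + j‖ =
      ‖α + z - 1‖ / ‖α + z + m‖ := by
    intro m
    induction m with
    | zero =>
      rw [Finset.prod_range_one, h1]
      simp
    | succ m ih =>
      rw [Finset.prod_range_succ, ih, h1]
      have h3 : α + z - 1 + ((m + 1 : ℕ) : ℂ) = α + z + m := by
        push_cast
        ring
      rw [h3]
      have h4 : ‖α + z + m‖ ≠ 0 := (lt_of_lt_of_le hα (gam_den hα h0 m)).ne'
      field_simp
  rw [h2]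
  have h5 : (n : ℝ) ≤ ‖α + z + n‖ := by
    calc (n : ℝ) ≤ (α + z + n).re := by
          simp only [add_re, natCast_re]
          linarith
      _ ≤ _ := re_le_norm _
  have hn' : (0 : ℝ) < n := by exact_mod_cast hn
  have h6 : Real.exp (2 * (1 / 2) * Real.log n) = n := by
    rw [show (2 : ℝ) * (1 / 2) * Real.log n = Real.log n by ring, Real.exp_log hn']
  rw [h6]
  have h7 : 0 < ‖α + z + n‖ := lt_of_lt_of_le hn' h5
  calc (n : ℝ) * (‖α + z - 1‖ / ‖α + z + n‖) = ‖α + z - 1‖ * (n / ‖α + z + n‖) := by ring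
    _ ≤ ‖α + z - 1‖ * 1 := by
        gcongr
        rw [div_le_one h7]
        exact h5
    _ = _ := mul_one _

theorem gamB_bdd {α : ℂ} (hα : 0 < α.re) {n : ℕ} (hn : 1 ≤ n) {z : ℂ} (hz0 : 0 ≤ z.re)
    (hz1 : z.re ≤ 1 / 2) :
    ‖gamB α n z‖ ≤ n * (1 + 1 / α.re) ^ (n + 1) := by
  rw [gamB_norm]
  have hn' : (0 : ℝ) < n := by exact_mod_cast hn
  have hl : 0 ≤ Real.log n := Real.log_natCast_nonneg n
  refine mul_le_mul ?_ ?_ (Finset.prod_nonneg fun j _ => by positivity) hn'.le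
  · rw [← Real.exp_log hn', Real.exp_le_exp]
    rw [Real.exp_log hn']
    nlinarith
  · calc ∏ j ∈ Finset.range (n + 1), ‖conj α - z + j‖ / ‖α + z + j‖
        ≤ ∏ j ∈ Finset.range (n + 1), (1 + 1 / α.re) := by
          refine Finset.prod_le_prod (fun j _ => by positivity) fun j _ => ?_
          have h1 := gam_den hα hz0 j
          have h2 : 0 < ‖α + z + j‖ := lt_of_lt_of_le hα h1
          have h3 : conj α - z + j = conj (α + z + j) - ((2 * z.re : ℝ) : ℂ) := by
            apply Complex.ext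
            · simp
              ring
            · simp
              ring
          have h4 : ‖conj α - z + j‖ ≤ ‖α + z + j‖ + 1 := by
            rw [h3]
            refine (norm_sub_le _ _).trans ?_
            rw [norm_conj, norm_real, Real.norm_eq_abs, abs_of_nonneg (by linarith)]
            linarith
          calc ‖conj α - z + j‖ / ‖α + z + j‖ ≤ (‖α + z + j‖ + 1) / ‖α + z + j‖ := by gcongr
            _ = 1 + 1 / ‖α + z + j‖ := by
                rw [add_div, div_self h2.ne']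
            _ ≤ 1 + 1 / α.re := by gcongr
      _ = (1 + 1 / α.re) ^ (n + 1) := by simp

theorem gamB_diff {α : ℂ} (n : ℕ) :
    DifferentiableOn ℂ (gamB α n) {z | -α.re < z.re} := by
  intro z hz
  unfold gamB
  refine DifferentiableAt.differentiableWithinAt ?_
  refine DifferentiableAt.mul (by fun_prop) ?_
  refine DifferentiableAt.fun_finsetProd fun j _ => ?_
  refine DifferentiableAt.div (by fun_prop) (by fun_prop) ?_
  intro h
  have h1 : (α + z + j).re = 0 := by rw [h]; simp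
  simp only [add_re, natCast_re] at h1
  have h2 : (0 : ℝ) ≤ j := Nat.cast_nonneg j
  have h3 : -α.re < z.re := hz
  linarith

/-- Phragmen-Lindelof for the finite product -/
theorem gamB_main {α : ℂ} (hα : 0 < α.re) {n : ℕ} (hn : 1 ≤ n) {t : ℝ} (ht0 : 0 ≤ t)
    (ht1 : t ≤ 1 / 2) :
    ‖gamB α n t‖ ≤ Real.exp (1 / 2) * Real.exp (2 * t * Real.log (1 + ‖α‖)) := by
  set lam : ℝ := Real.log (1 + ‖α‖) with hlam
  have hlam0 : 0 ≤ lam := Real.log_nonneg (by linarith [norm_nonneg α])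
  have hA : (0 : ℝ) < 1 + ‖α‖ := by positivity
  let F : ℂ → ℂ := fun z => gamB α n z * (cexp (z ^ 2) * cexp (-(2 * z * (lam : ℂ))))
  have hFn : ∀ z : ℂ, ‖F z‖ = ‖gamB α n z‖ *
      (Real.exp (z.re ^ 2 - z.im ^ 2) * Real.exp (-(2 * z.re * lam))) := by
    intro z
    simp only [F, norm_mul, norm_exp]
    congr 3
    · rw [sq, mul_re]
      ring
    · rw [neg_re, re_mul_ofReal]
      simp
  have hbd : ∀ z : ℂ, 0 ≤ z.re → z.re ≤ 1 / 2 →
      ‖F z‖ ≤ n * (1 + 1 / α.re) ^ (n + 1) * Real.exp (1 / 4) := by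
    intro z h0 h1
    rw [hFn]
    have h2 := gamB_bdd hα hn h0 h1
    refine mul_le_mul h2 ?_ (by positivity) (by positivity)
    rw [← Real.exp_add, Real.exp_le_exp]
    nlinarith [sq_nonneg z.im, mul_nonneg h0 hlam0]
  have hPL : ‖F t‖ ≤ Real.exp (1 / 2) := by
    refine PhragmenLindelof.vertical_strip (a := 0) (b := 1 / 2) (f := F) ?_ ?_ ?_ ?_ ?_ ?_
    · refine DifferentiableOn.diffContOnCl ?_
      have hcl : closure (re ⁻¹' Ioo (0 : ℝ) (1 / 2)) ⊆ {z : ℂ | -α.re < z.re} := by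
        refine (closure_mono (t := re ⁻¹' Icc (0 : ℝ) (1 / 2)) ?_).trans ?_
        · exact preimage_mono Ioo_subset_Icc_self
        · rw [IsClosed.closure_eq (isClosed_Icc.preimage continuous_re)]
          intro z hz
          have : 0 ≤ z.re := hz.1
          show -α.re < z.re
          linarith
      refine DifferentiableOn.mul ((gamB_diff n).mono hcl) ?_
      exact Differentiable.differentiableOn (by fun_prop)
    · refine ⟨0, by positivity, 0, ?_⟩
      have : (fun z : ℂ => Real.exp (0 * Real.exp (0 * |z.im|))) = fun _ => (1 : ℝ) := by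
        funext z
        simp
      rw [this]
      refine Asymptotics.IsBigO.of_bound (n * (1 + 1 / α.re) ^ (n + 1) * Real.exp (1 / 4)) ?_
      refine Filter.Eventually.filter_mono inf_le_right ?_
      rw [Filter.eventually_principal]
      intro z hz
      simp only [norm_one, mul_one]
      exact hbd z (le_of_lt hz.1) (le_of_lt hz.2)
    · intro z hz
      rw [hFn, gamB_zero hα n hz, hz, one_mul, ← Real.exp_add, Real.exp_le_exp]
      nlinarith [sq_nonneg z.im]
    · intro z hz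
      rw [hFn, hz]
      have h1 := gamB_half hα hn hz
      have h2 : ‖α + z - 1‖ ≤ (1 + ‖α‖) * Real.exp |z.im| := by
        have h3 : ‖z - 1‖ ≤ 1 / 2 + |z.im| := by
          refine (norm_le_abs_re_add_abs_im _).trans ?_
          simp only [sub_re, one_re, sub_im, one_im, sub_zero, hz]
          rw [show |(1 : ℝ) / 2 - 1| = 1 / 2 by norm_num]
        have h4 : ‖α + z - 1‖ ≤ ‖α‖ + (1 / 2 + |z.im|) := by
          rw [show α + z - 1 = α + (z - 1) by ring]
          exact (norm_add_le _ _).trans (by linarith)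
        have h5 : |z.im| + 1 ≤ Real.exp |z.im| := Real.add_one_le_exp _
        have h6 := norm_nonneg α
        have h7 := abs_nonneg z.im
        nlinarith [mul_nonneg h6 h7]
      have hx : Real.exp (-(2 * (1 / 2) * lam)) = (1 + ‖α‖)⁻¹ := by
        rw [show -(2 * (1 / 2) * lam) = -lam by ring, Real.exp_neg, Real.exp_log hA]
      calc ‖gamB α n z‖ * (Real.exp ((1 / 2) ^ 2 - z.im ^ 2) * Real.exp (-(2 * (1 / 2) * lam)))
          ≤ ((1 + ‖α‖) * Real.exp |z.im|) *
            (Real.exp ((1 / 2) ^ 2 - z.im ^ 2) * (1 + ‖α‖)⁻¹) := by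
            rw [hx]
            refine mul_le_mul_of_nonneg_right (h1.trans h2) (by positivity)
        _ = Real.exp (|z.im| + ((1 / 2) ^ 2 - z.im ^ 2)) := by
            rw [Real.exp_add]
            field_simp
        _ ≤ Real.exp (1 / 2) := by
            rw [Real.exp_le_exp]
            have := sq_abs z.im
            nlinarith [sq_nonneg (|z.im| - 1 / 2)]
    · simpa using ht0
    · simpa using ht1
  rw [hFn] at hPL
  simp only [ofReal_re, ofReal_im] at hPL
  have h1 : 1 ≤ Real.exp (t ^ 2 - 0 ^ 2) := Real.one_le_exp (by nlinarith [sq_nonneg t])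
  have h2 : Real.exp (2 * t * lam) * Real.exp (-(2 * t * lam)) = 1 := by
    rw [← Real.exp_add]
    simp
  calc ‖gamB α n t‖ = ‖gamB α n t‖ * 1 * (Real.exp (2 * t * lam) * Real.exp (-(2 * t * lam))) := by
        rw [h2]
        ring
    _ ≤ ‖gamB α n t‖ * Real.exp (t ^ 2 - 0 ^ 2) *
        (Real.exp (2 * t * lam) * Real.exp (-(2 * t * lam))) := by gcongr
    _ = (‖gamB α n t‖ * (Real.exp (t ^ 2 - 0 ^ 2) * Real.exp (-(2 * t * lam)))) *
        Real.exp (2 * t * lam) := by ring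
    _ ≤ Real.exp (1 / 2) * Real.exp (2 * t * lam) := by gcongr

theorem GammaSeq_norm (s : ℂ) {n : ℕ} (hn : 1 ≤ n) :
    ‖GammaSeq s n‖ = Real.exp (s.re * Real.log n) * n.factorial /
      ∏ j ∈ Finset.range (n + 1), ‖s + j‖ := by
  have hn' : (0 : ℝ) < n := by exact_mod_cast hn
  unfold GammaSeq
  rw [norm_div, norm_mul, norm_prod, norm_natCast]
  congr 2
  rw [norm_natCast_cpow_of_pos (by omega), Real.rpow_def_of_pos hn', mul_comm]

theorem gam_limit {α : ℂ} (hα : 0 < α.re) {t : ℝ} (ht0 : 0 ≤ t) (ht1 : t ≤ 1 / 2)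
    (hne : ∀ j : ℕ, α - t + j ≠ 0) :
    ‖Gamma (α + t)‖ ≤
      Real.exp (1 / 2) * Real.exp (2 * t * Real.log (1 + ‖α‖)) * ‖Gamma (α - t)‖ := by
  have h1 : Tendsto (fun n => ‖GammaSeq (α + t) n‖) atTop (𝓝 ‖Gamma (α + t)‖) :=
    (GammaSeq_tendsto_Gamma _).norm
  have h2 : Tendsto (fun n => Real.exp (1 / 2) * Real.exp (2 * t * Real.log (1 + ‖α‖)) *
      ‖GammaSeq (α - t) n‖) atTop (𝓝 (Real.exp (1 / 2) *
      Real.exp (2 * t * Real.log (1 + ‖α‖)) * ‖Gamma (α - t)‖)) :=
    ((GammaSeq_tendsto_Gamma _).norm).const_mul _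
  refine le_of_tendsto_of_tendsto h1 h2 ?_
  filter_upwards [eventually_ge_atTop 1] with n hn
  have h3 := gamB_main hα hn ht0 ht1
  refine le_trans ?_ (mul_le_mul_of_nonneg_right h3 (norm_nonneg _))
  rw [gamB_norm, GammaSeq_norm _ hn, GammaSeq_norm _ hn, Finset.prod_div_distrib]
  have h4 : ∀ j : ℕ, ‖conj α - t + j‖ = ‖α - t + j‖ := by
    intro j
    rw [← norm_conj (α - t + j)]
    simp
  simp only [h4]
  have h5 : 0 < ∏ j ∈ Finset.range (n + 1), ‖α - t + j‖ :=
    Finset.prod_pos fun j _ => norm_pos_iff.2 (hne j)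
  have h6 : 0 < ∏ j ∈ Finset.range (n + 1), ‖α + t + j‖ := by
    refine Finset.prod_pos fun j _ => ?_
    exact lt_of_lt_of_le hα (gam_den hα (by simpa using ht0) j)
  have h7 : Real.exp ((α + t).re * Real.log n) =
      Real.exp (2 * (t : ℂ).re * Real.log n) * Real.exp ((α - t).re * Real.log n) := by
    rw [← Real.exp_add]
    congr 1
    simp
    ring
  rw [h7]
  apply le_of_eq
  field_simp

theorem GAM : GAM_stmt := by
  refine ⟨Real.exp (1 / 2), Real.one_le_exp (by norm_num), ?_⟩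
  intro w σ hw h1 h2
  have hA0 : (0 : ℝ) < 1 + ‖(1 / 2 : ℂ) + w‖ := by
    have := norm_nonneg ((1 / 2 : ℂ) + w)
    linarith
  have hC : (0 : ℝ) ≤ Real.exp (1 / 2) * (1 + ‖(1 / 2 : ℂ) + w‖) ^ (σ - 1 / 2) :=
    mul_nonneg (Real.exp_pos _).le (Real.rpow_nonneg hA0.le _)
  set α : ℂ := ((1 / 2 : ℂ) + w) / 2 with hαdef
  set t : ℝ := (σ - 1 / 2) / 2 with htdef
  have hα : 0 < α.re := by
    rw [hαdef]
    simp
    linarith
  have e1 : ((σ : ℂ) + w) / 2 = α + t := by
    rw [hαdef, htdef]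
    push_cast
    ring
  have e2 : ((1 - σ : ℂ) + w) / 2 = α - t := by
    rw [hαdef, htdef]
    push_cast
    ring
  by_cases hne : ∀ j : ℕ, α - t + j ≠ 0
  · have h3 := gam_limit hα (t := t) (by linarith) (by linarith) hne
    have hG : Gamma (α - t) ≠ 0 := by
      refine Gamma_ne_zero fun m hm => hne m ?_
      rw [hm]
      simp
    have hpi : (0 : ℝ) < Real.pi := Real.pi_pos
    rw [norm_inv, Gammaℝ_def, Gammaℝ_def, norm_mul, norm_mul, e1, e2]
    have n1 : ‖(Real.pi : ℂ) ^ (-((σ : ℂ) + w) / 2)‖ = Real.pi ^ (-(σ + w.re) / 2) := by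
      rw [norm_cpow_eq_rpow_re_of_pos hpi]
      congr 1
      simp
    have n2 : ‖(Real.pi : ℂ) ^ (-((1 - σ : ℂ) + w) / 2)‖ = Real.pi ^ (-(1 - σ + w.re) / 2) := by
      rw [norm_cpow_eq_rpow_re_of_pos hpi]
      congr 1
      simp
    rw [n1, n2]
    have hG' : 0 < ‖Gamma (α - t)‖ := norm_pos_iff.2 hG
    have hp2 : 0 < Real.pi ^ (-(1 - σ + w.re) / 2) := Real.rpow_pos_of_pos hpi _
    have h4 : Real.pi ^ (-(σ + w.re) / 2) ≤ Real.pi ^ (-(1 - σ + w.re) / 2) := by
      refine Real.rpow_le_rpow_of_exponent_le (by linarith [Real.pi_gt_three]) ?_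
      linarith
    have h5 : Real.exp (2 * t * Real.log (1 + ‖α‖)) ≤
        (1 + ‖(1 / 2 : ℂ) + w‖) ^ (σ - 1 / 2) := by
      have hA : (0 : ℝ) < 1 + ‖(1 / 2 : ℂ) + w‖ := hA0
      rw [Real.rpow_def_of_pos hA, Real.exp_le_exp, mul_comm (Real.log _)]
      have : 2 * t = σ - 1 / 2 := by rw [htdef]; ring
      rw [this]
      refine mul_le_mul_of_nonneg_left ?_ (by linarith)
      refine Real.log_le_log (by positivity) ?_
      have : ‖α‖ = ‖(1 / 2 : ℂ) + w‖ / 2 := by
        rw [hαdef, norm_div]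
        simp
      rw [this]
      linarith [norm_nonneg ((1 / 2 : ℂ) + w)]
    rw [mul_inv]
    calc Real.pi ^ (-(σ + w.re) / 2) * ‖Gamma (α + t)‖ *
          ((Real.pi ^ (-(1 - σ + w.re) / 2))⁻¹ * ‖Gamma (α - t)‖⁻¹)
        ≤ Real.pi ^ (-(1 - σ + w.re) / 2) *
          (Real.exp (1 / 2) * Real.exp (2 * t * Real.log (1 + ‖α‖)) * ‖Gamma (α - t)‖) *
          ((Real.pi ^ (-(1 - σ + w.re) / 2))⁻¹ * ‖Gamma (α - t)‖⁻¹) := by gcongr
      _ = Real.exp (1 / 2) * Real.exp (2 * t * Real.log (1 + ‖α‖)) := by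
          field_simp
      _ ≤ _ := by gcongr
  · push Not at hne
    obtain ⟨j, hj⟩ := hne
    have : Gammaℝ (1 - σ + w) = 0 := by
      rw [Gammaℝ_def, e2, eq_neg_of_add_eq_zero_left hj, Gamma_neg_nat_eq_zero, mul_zero]
    rw [this]
    simp only [inv_zero, norm_zero, mul_zero]
    exact hC

end Pool.Agent.WS
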